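import Pool.Agent.H41.HZ.Stm2
import Pool.Agent.H34.ND.Ind

/-! # Cramér's model has the cumulative hazard `Λ(t) = t` -/

set_option autoImplicit false

namespace Pool.Agent.H31.HZ

open MeasureTheory Filter Topology ProbabilityTheory
open Pool.Agent.H34.ND (Free)
open Pool.Agent.H41.LD (Past Future)
open Pool.Agent.H41.HZ (Hazard S_CRM)

section prob

variable {Ω : Type*} [MeasurableSpace Ω] {P : Measure Ω} [IsProbabilityMeasure P] {E : ℕ → Set Ω}

lemma past_future_indep (hm : ∀ n, MeasurableSet (E n)) (h : iIndepSet E P) (n : ℕ) :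
    Indep (Past E n) (Future E n) P := by
  have h1 := h.indep_generateFrom_of_disjoint hm {k | k ≤ n} {k | n < k} (by
    rw [Set.disjoint_left]
    intro k hk hk'
    have a1 : k ≤ n := hk
    have a2 : n < k := hk'
    omega)
  exact h1

lemma free_future (n b : ℕ) : MeasurableSet[Future E n] (Free E n b) := by
  rw [Pool.Agent.H34.ND.free_biInter]
  refine @Finset.measurableSet_biInter Ω ℕ (Future E n) _ _ ?_
  intro k hk
  rw [Finset.mem_Ioc] at hk
  refine @MeasurableSet.compl Ω (E k) (Future E n) ?_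
  exact MeasurableSpace.measurableSet_generateFrom ⟨k, hk.1, rfl⟩

lemma inter_free (hm : ∀ n, MeasurableSet (E n)) (h : iIndepSet E P) (n b : ℕ) {B : Set Ω}
    (hB : MeasurableSet[Past E n] B) :
    P.real (B ∩ Free E n b) = (∏ k ∈ Finset.Ioc n b, (1 - P.real (E k))) * P.real B := by
  have h1 : P (B ∩ Free E n b) = P B * P (Free E n b) :=
    (Indep_iff _ _ P).1 (past_future_indep hm h n) _ _ hB (free_future n b)
  rw [measureReal_def, h1, ENNReal.toReal_mul, ← measureReal_def, ← measureReal_def,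
    Pool.Agent.H34.ND.indep_free hm h, mul_comm]

end prob

/-- `1 - x ≥ exp (-(1 + d) x)` for small `x ≥ 0` -/
lemma exp_le_one_sub {d x : ℝ} (hd1 : d ≤ 1) (hx0 : 0 ≤ x) (hx : x ≤ d / 2) :
    Real.exp (-((1 + d) * x)) ≤ 1 - x := by
  have h1 : 0 < 1 - x := by linarith
  have hd : 0 ≤ d := by linarith
  have h2 : (1 - x)⁻¹ ≤ Real.exp ((1 + d) * x) := by
    refine le_trans ?_ (Real.add_one_le_exp _)
    rw [inv_le_iff_one_le_mul₀ h1]
    nlinarith [mul_nonneg hx0 hd, mul_nonneg hx0 hx0]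
  rw [Real.exp_neg]
  exact inv_le_of_inv_le₀ h1 h2

/-- the estimates for the probabilities in the window `(n, n + h]` -/
lemma window {p : ℕ → ℝ} (hp : Tendsto (fun n : ℕ => p n * Real.log n) atTop (𝓝 1))
    {d : ℝ} (hd : 0 < d) (hd1 : d ≤ 1 / 2) :
    ∀ᶠ n : ℕ in atTop, 0 < Real.log n ∧ ∀ h k : ℕ, (h : ℝ) ≤ 2 * Real.log n * Real.log n →
      n < k → k ≤ n + h →
        (1 - 2 * d) / Real.log n ≤ p k ∧ p k ≤ (1 + d) / Real.log n ∧ p k ≤ d / 2 := by
  have h1 : ∀ᶠ n : ℕ in atTop, 1 - d < p n * Real.log n := hp.eventually_const_lt (by linarith)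
  have h2 : ∀ᶠ n : ℕ in atTop, p n * Real.log n < 1 + d := hp.eventually_lt_const (by linarith)
  have h3 : ∀ᶠ n : ℕ in atTop, p n < d / 2 :=
    (Pool.Agent.H34.ND.tendsto_zero_of_density hp).eventually_lt_const (by linarith)
  obtain ⟨N, hN⟩ := eventually_atTop.1 (h1.and (h2.and h3))
  have h4 : ∀ᶠ n : ℕ in atTop, 2 * Real.log n * Real.log n ≤ n := by
    have h5 : Tendsto (fun x : ℝ => Real.log x ^ 2 / (1 * x + 0)) atTop (𝓝 0) :=
      Real.tendsto_pow_log_div_mul_add_atTop 1 0 2 one_ne_zero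
    have h6 := (h5.comp tendsto_natCast_atTop_atTop).eventually_lt_const
      (show (0:ℝ) < 1 / 2 by norm_num)
    filter_upwards [h6, eventually_gt_atTop 0] with n hn hn0
    have hn1 : (0:ℝ) < n := by exact_mod_cast hn0
    have h7 : Real.log n ^ 2 / (1 * (n:ℝ) + 0) < 1 / 2 := hn
    rw [one_mul, add_zero, div_lt_iff₀ hn1] at h7
    nlinarith
  filter_upwards [h4, Pool.Agent.H34.ND.ev_log_mul (Real.log 2) (show 1 < 1 + d by linarith),
    eventually_ge_atTop N, eventually_ge_atTop 2] with n hn4 hlog hnN hn2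
  have hL : 0 < Real.log n := Real.log_pos (by exact_mod_cast hn2)
  refine ⟨hL, ?_⟩
  intro h k hh hk1 hk2
  obtain ⟨a1, a2, a3⟩ := hN k (by omega)
  have hn0 : (0:ℝ) < n := by
    have : 0 < n := by omega
    exact_mod_cast this
  have hkn : (n:ℝ) ≤ k := by exact_mod_cast hk1.le
  have hk0 : (0:ℝ) < k := lt_of_lt_of_le hn0 hkn
  have hL1 : Real.log n ≤ Real.log k := Real.log_le_log hn0 hkn
  have hL2 : Real.log k ≤ (1 + d) * Real.log n := by
    refine le_trans ?_ hlog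
    rw [← Real.log_mul (ne_of_gt hn0) (by norm_num)]
    apply Real.log_le_log hk0
    have : (k:ℝ) ≤ n + h := by exact_mod_cast hk2
    linarith
  have hLk : 0 < Real.log k := lt_of_lt_of_le hL hL1
  have hpk : 0 < p k := by
    by_contra hc
    have : p k * Real.log k ≤ 0 := mul_nonpos_of_nonpos_of_nonneg (not_lt.1 hc) hLk.le
    linarith
  refine ⟨?_, ?_, a3.le⟩
  · rw [div_le_iff₀ hL]
    have h8 : 1 - d ≤ p k * ((1 + d) * Real.log n) :=
      a1.le.trans (mul_le_mul_of_nonneg_left hL2 hpk.le)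
    have h9 : (1 - 2 * d) * (1 + d) ≤ 1 - d := by nlinarith
    have h10 : (1 - 2 * d) * (1 + d) ≤ (p k * Real.log n) * (1 + d) := by
      linarith
    exact le_of_mul_le_mul_right h10 (by linarith)
  · rw [le_div_iff₀ hL]
    exact (mul_le_mul_of_nonneg_left hL1 hpk.le).trans a2.le

lemma prod_upper {p : ℕ → ℝ} {s : Finset ℕ} {c : ℝ} (h0 : ∀ k ∈ s, p k ≤ 1)
    (h : ∀ k ∈ s, c ≤ p k) : ∏ k ∈ s, (1 - p k) ≤ Real.exp (-(s.card * c)) := by
  have h1 : ∏ k ∈ s, (1 - p k) ≤ ∏ _k ∈ s, Real.exp (-c) := by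
    apply Finset.prod_le_prod
    · intro k hk
      linarith [h0 k hk]
    · intro k hk
      have := Real.add_one_le_exp (-c)
      linarith [h k hk]
  rw [Finset.prod_const, ← Real.exp_nat_mul] at h1
  rwa [← mul_neg]

lemma prod_lower {p : ℕ → ℝ} {s : Finset ℕ} {c d : ℝ} (hd : 0 < d) (hd1 : d ≤ 1)
    (h0 : ∀ k ∈ s, 0 ≤ p k) (h1 : ∀ k ∈ s, p k ≤ d / 2) (h : ∀ k ∈ s, p k ≤ c) :
    Real.exp (-(s.card * ((1 + d) * c))) ≤ ∏ k ∈ s, (1 - p k) := by
  have h2 : ∏ _k ∈ s, Real.exp (-((1 + d) * c)) ≤ ∏ k ∈ s, (1 - p k) := by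
    apply Finset.prod_le_prod
    · intro k _
      exact (Real.exp_pos _).le
    · intro k hk
      refine le_trans ?_ (exp_le_one_sub hd1 (h0 k hk) (h1 k hk))
      apply Real.exp_le_exp.2
      have := mul_le_mul_of_nonneg_left (h k hk) (show (0:ℝ) ≤ 1 + d by linarith)
      linarith
  rw [Finset.prod_const, ← Real.exp_nat_mul] at h2
  rwa [← mul_neg]

lemma prod_window {p : ℕ → ℝ} (hp0 : ∀ n, 0 ≤ p n) (hp1 : ∀ n, p n ≤ 1)
    (hp : Tendsto (fun n : ℕ => p n * Real.log n) atTop (𝓝 1)) {ε : ℝ} (hε : 0 < ε) :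
    ∀ᶠ n : ℕ in atTop, ∀ h : ℕ, (h : ℝ) / Real.log n ≤ 2 * Real.log n →
      Real.exp (-(1 + ε) * (h / Real.log n)) ≤ ∏ k ∈ Finset.Ioc n (n + h), (1 - p k) ∧
      ∏ k ∈ Finset.Ioc n (n + h), (1 - p k) ≤ Real.exp (-(1 - ε) * (h / Real.log n)) := by
  obtain ⟨d, hd, hd1, hdε⟩ : ∃ d : ℝ, 0 < d ∧ d ≤ 1 / 2 ∧ 3 * d ≤ ε :=
    ⟨min (1 / 2) (ε / 3), by positivity, min_le_left _ _, by
      have := min_le_right (1 / 2 : ℝ) (ε / 3)
      linarith⟩
  filter_upwards [window hp hd hd1] with n hn h hh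
  obtain ⟨hL, hw⟩ := hn
  rw [div_le_iff₀ hL] at hh
  have hcard : ((Finset.Ioc n (n + h)).card : ℝ) = h := by
    rw [Nat.card_Ioc]
    congr 1
    omega
  have hmem : ∀ k ∈ Finset.Ioc n (n + h),
      (1 - 2 * d) / Real.log n ≤ p k ∧ p k ≤ (1 + d) / Real.log n ∧ p k ≤ d / 2 := by
    intro k hk
    rw [Finset.mem_Ioc] at hk
    exact hw h k hh hk.1 hk.2
  have hq : 0 ≤ (h:ℝ) / Real.log n := by positivity
  constructor
  · refine le_trans ?_ (prod_lower (c := (1 + d) / Real.log n) hd (by linarith)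
      (fun k _ => hp0 k) (fun k hk => (hmem k hk).2.2) (fun k hk => (hmem k hk).2.1))
    apply Real.exp_le_exp.2
    rw [hcard]
    have e : (h:ℝ) * ((1 + d) * ((1 + d) / Real.log n)) = (1 + d) ^ 2 * (h / Real.log n) := by
      ring
    rw [e]
    have h2 : (1 + d) ^ 2 ≤ 1 + ε := by nlinarith
    have := mul_le_mul_of_nonneg_right h2 hq
    linarith
  · refine le_trans (prod_upper (c := (1 - 2 * d) / Real.log n) (fun k _ => hp1 k)
      (fun k hk => (hmem k hk).1)) ?_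
    apply Real.exp_le_exp.2
    rw [hcard]
    have e : (h:ℝ) * ((1 - 2 * d) / Real.log n) = (1 - 2 * d) * (h / Real.log n) := by
      ring
    rw [e]
    have h2 : 1 - ε ≤ 1 - 2 * d := by linarith
    have := mul_le_mul_of_nonneg_right h2 hq
    linarith

/-- CRM: Cramér's model has the cumulative hazard `Λ(t) = t` -/
theorem crm : S_CRM := by
  intro Ω _ P _ E hm hind hp
  refine ⟨hm, ?_, ?_⟩
  · filter_upwards [Pool.Agent.H34.ND.indep_cramer hm hind
      (Pool.Agent.H34.ND.spread_of_density hp)] with ω hω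
    exact hω.1
  · intro ε hε
    obtain ⟨N, hN⟩ := eventually_atTop.1 (prod_window (p := fun n => P.real (E n))
      (fun n => measureReal_nonneg) (fun n => measureReal_le_one) hp hε)
    refine ⟨N, ?_⟩
    intro n h hn _ hh B hB _
    have h1 := hN n (by exact_mod_cast hn) h hh
    rw [inter_free hm hind n (n + h) hB]
    exact ⟨mul_le_mul_of_nonneg_right h1.1 measureReal_nonneg,
      mul_le_mul_of_nonneg_right h1.2 measureReal_nonneg⟩

end Pool.Agent.H31.HZ
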